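import Mathlib

/-!
# The frontier property fails for the Betti strata of `G_T`, `T = (1, 3^k, 1)`, `k ≥ 3`
-/

namespace Pool.Agent.Results.MP_b99c49_ag.FrontierFails

open MvPolynomial

/-! ### The notions of the problem -/

/-- The polynomial ring `R = K[x, y, z]`. -/
abbrev Rg (K : Type*) [Field K] : Type _ := MvPolynomial (Fin 3) K

variable {K : Type*} [Field K]

/-- The forms of degree `i`. -/
noncomputable abbrev V (K : Type*) [Field K] (i : ℕ) : Submodule K (Rg K) :=
  homogeneousSubmodule (Fin 3) K i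

/-- A graded ideal `I = ⊕ I_i` of `R`, given by its graded pieces `I_i ⊆ R_i` with
`x_j I_i ⊆ I_{i+1}`. -/
structure GradedIdeal (K : Type*) [Field K] where
  part : ℕ → Submodule K (Rg K)
  le : ∀ i, part i ≤ V K i
  mul : ∀ i (j : Fin 3) (f : Rg K), f ∈ part i → X j * f ∈ part (i + 1)

/-- The family `G_T` of the graded ideals `I` such that `R / I` has Hilbert function `T`. -/
def GT (K : Type*) [Field K] (T : ℕ → ℕ) : Set (GradedIdeal K) :=
  {I | ∀ i, Module.finrank K (I.part i) + T i = Module.finrank K (V K i)}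

/-- The sequence `T = (1, 3^k, 1)`. -/
def T3 (k : ℕ) (i : ℕ) : ℕ :=
  if i = 0 then 1 else if i ≤ k then 3 else if i = k + 1 then 1 else 0

/-- The Koszul map `d_1 : R^3 → R`, `v ↦ x v_0 + y v_1 + z v_2`. -/
noncomputable def dot : (Fin 3 → Rg K) →ₗ[K] Rg K where
  toFun v := X 0 * v 0 + X 1 * v 1 + X 2 * v 2
  map_add' v w := by simp only [Pi.add_apply]; ring
  map_smul' c v := by
    simp only [Pi.smul_apply, RingHom.id_apply, smul_add, mul_smul_comm]

/-- The Koszul map `d_2 : R^3 → R^3`, `v ↦ (x, y, z) × v`. -/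
noncomputable def cross : (Fin 3 → Rg K) →ₗ[K] (Fin 3 → Rg K) where
  toFun v := ![X 1 * v 2 - X 2 * v 1, X 2 * v 0 - X 0 * v 2, X 0 * v 1 - X 1 * v 0]
  map_add' v w := by
    funext i
    fin_cases i <;> simp <;> ring
  map_smul' c v := by
    funext i
    fin_cases i <;> simp [smul_sub]

/-- The Koszul map `d_3 : R → R^3`, `a ↦ (x a, y a, z a)`. -/
noncomputable def diag : Rg K →ₗ[K] (Fin 3 → Rg K) where
  toFun a := ![X 0 * a, X 1 * a, X 2 * a]
  map_add' v w := by
    funext i
    fin_cases i <;> simp <;> ring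
  map_smul' c v := by
    funext i
    fin_cases i <;> simp

/-- `P^3` for a subspace `P ⊆ R`. -/
noncomputable def cube (P : Submodule K (Rg K)) : Submodule K (Fin 3 → Rg K) :=
  Submodule.pi Set.univ fun _ => P

/-- The dimension of the Koszul 1-cycles of `R / I` with entries of degree `j`, lifted to `R^3`:
`{v ∈ (R_j)^3 : d_1 v ∈ I}`. -/
noncomputable def z1 (I : GradedIdeal K) (j : ℕ) : ℕ :=
  Module.finrank K (cube (V K j) ⊓ (I.part (j + 1)).comap dot : Submodule K (Fin 3 → Rg K))

/-- The dimension of the Koszul 2-cycles with entries of degree `j`. -/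
noncomputable def z2 (I : GradedIdeal K) (j : ℕ) : ℕ :=
  Module.finrank K (cube (V K j) ⊓ (cube (I.part (j + 1))).comap cross :
    Submodule K (Fin 3 → Rg K))

/-- The dimension of the Koszul 3-cycles of degree `j`. -/
noncomputable def z3 (I : GradedIdeal K) (j : ℕ) : ℕ :=
  Module.finrank K (V K j ⊓ (cube (I.part (j + 1))).comap diag : Submodule K (Rg K))

/-- The dimension of `d_1 (R_j^3) + I_{j+1}`. -/
noncomputable def w0 (I : GradedIdeal K) (j : ℕ) : ℕ :=
  Module.finrank K ((cube (V K j)).map dot ⊔ I.part (j + 1) : Submodule K (Rg K))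

/-- The dimension of `d_2 (R_j^3) + I_{j+1}^3`. -/
noncomputable def w1 (I : GradedIdeal K) (j : ℕ) : ℕ :=
  Module.finrank K ((cube (V K j)).map cross ⊔ cube (I.part (j + 1)) :
    Submodule K (Fin 3 → Rg K))

/-- The dimension of `d_3 (R_j) + I_{j+1}^3`. -/
noncomputable def w2 (I : GradedIdeal K) (j : ℕ) : ℕ :=
  Module.finrank K ((V K j).map diag ⊔ cube (I.part (j + 1)) : Submodule K (Fin 3 → Rg K))

/-- The graded Betti numbers `β_{i,j}` of `R / I`: the dimension of the degree `j` part of the `i`-th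
homology of the Koszul complex of `R / I` with respect to `x, y, z`. Written with subspaces of
`R` and `R^3` the homology at the spot `i` is `{v : d_i v ∈ I} / (im d_{i+1} + I)`. The internal
degree of a component of a chain at the spot `i` is `j - i`; there is nothing when `j < i`. -/
noncomputable def betti (I : GradedIdeal K) : ℕ → ℕ → ℕ
  | 0, 0 => Module.finrank K (V K 0) - Module.finrank K (I.part 0)
  | 0, j + 1 => Module.finrank K (V K (j + 1)) - w0 I j
  | 1, 0 => 0
  | 1, 1 => z1 I 0 - Module.finrank K (cube (I.part 0))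
  | 1, j + 2 => z1 I (j + 1) - w1 I j
  | 2, 0 => 0
  | 2, 1 => 0
  | 2, 2 => z2 I 0 - Module.finrank K (cube (I.part 0))
  | 2, j + 3 => z2 I (j + 1) - w2 I j
  | 3, 0 => 0
  | 3, 1 => 0
  | 3, 2 => 0
  | 3, j + 3 => z3 I j - Module.finrank K (I.part j)
  | _ + 4, _ => 0

/-- The Betti stratum of the table `β` in `G_T`. -/
def stratum (T : ℕ → ℕ) (β : ℕ → ℕ → ℕ) : Set (GradedIdeal K) := {I | I ∈ GT K T ∧ betti I = β}

/-- A frame of `I`: a basis of each graded piece. -/
def IsFrame {r : ℕ → ℕ} (I : GradedIdeal K) (b : (i : ℕ) → Fin (r i) → Rg K) : Prop :=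
  ∀ i, LinearIndependent K (b i) ∧ Submodule.span K (Set.range (b i)) = I.part i

/-- The dimensions of the graded pieces of the members of `G_T`. -/
noncomputable def rk (K : Type*) [Field K] (T : ℕ → ℕ) (i : ℕ) : ℕ := Module.finrank K (V K i) - T i

/-- The value of a polynomial `P` in the coordinates (coefficients) of the members of a frame. -/
noncomputable def frameEval {r : ℕ → ℕ} (P : MvPolynomial (Σ i, Fin (r i) × (Fin 3 →₀ ℕ)) K)
    (b : (i : ℕ) → Fin (r i) → Rg K) : K :=
  eval (fun s : Σ i, Fin (r i) × (Fin 3 →₀ ℕ) => coeff s.2.2 (b s.1 s.2.1)) P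

/-- The Zariski closure in `G_T` of a subset `S`, `G_T` being viewed as a subset of the product of
the Grassmannians of the `R_i`; a subset of a Grassmannian is closed when its preimage in the space
of frames is cut out by polynomials in the coordinates of the frames. -/
def zariskiClosure (T : ℕ → ℕ) (S : Set (GradedIdeal K)) : Set (GradedIdeal K) :=
  {I | I ∈ GT K T ∧ ∀ P : MvPolynomial (Σ i, Fin (rk K T i) × (Fin 3 →₀ ℕ)) K,
    (∀ J ∈ S, ∀ b : (i : ℕ) → Fin (rk K T i) → Rg K, IsFrame J b → frameEval P b = 0) →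
    ∀ b : (i : ℕ) → Fin (rk K T i) → Rg K, IsFrame I b → frameEval P b = 0}

/-- The frontier property: the closure of each Betti stratum is a union of Betti strata. -/
def FrontierProperty (K : Type*) [Field K] (T : ℕ → ℕ) : Prop :=
  ∀ β : ℕ → ℕ → ℕ, ∃ B : Set (ℕ → ℕ → ℕ),
    zariskiClosure (K := K) T (stratum T β) = ⋃ γ ∈ B, stratum T γ

/-! ### Linear algebra -/

section LinAlg

variable {E E' : Type*} [AddCommGroup E] [Module K E] [AddCommGroup E'] [Module K E']

/-- `dim (f(V) + I) + dim (V ∩ f⁻¹(I)) = dim V + dim I`. -/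
lemma finrank_formula (f : E →ₗ[K] E') (U : Submodule K E) (I : Submodule K E')
    [FiniteDimensional K U] [FiniteDimensional K I] :
    Module.finrank K (U.map f ⊔ I : Submodule K E') +
      Module.finrank K (U ⊓ I.comap f : Submodule K E) =
    Module.finrank K U + Module.finrank K I := by
  have h1 := Submodule.finrank_sup_add_finrank_inf_eq (U.map f) I
  -- restrict to `U`
  let g : U →ₗ[K] E' := f.comp U.subtype
  have h2 := LinearMap.finrank_range_add_finrank_ker g
  have hr : LinearMap.range g = U.map f := by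
    rw [LinearMap.range_comp, Submodule.range_subtype]
  let g' : (U ⊓ I.comap f : Submodule K E) →ₗ[K] E' := f.comp (U ⊓ I.comap f).subtype
  have hfd : FiniteDimensional K (U ⊓ I.comap f : Submodule K E) :=
    Submodule.finiteDimensional_of_le inf_le_left
  have h3 := LinearMap.finrank_range_add_finrank_ker g'
  have hr' : LinearMap.range g' = U.map f ⊓ I := by
    rw [LinearMap.range_comp, Submodule.range_subtype]
    ext y
    constructor
    · rintro ⟨x, ⟨hx1, hx2⟩, rfl⟩
      exact ⟨⟨x, hx1, rfl⟩, hx2⟩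
    · rintro ⟨⟨x, hx1, rfl⟩, hx2⟩
      exact ⟨x, ⟨hx1, hx2⟩, rfl⟩
  have hk : Module.finrank K (LinearMap.ker g) = Module.finrank K (LinearMap.ker g') := by
    have e : (LinearMap.ker g).map U.subtype =
        (LinearMap.ker g').map (U ⊓ I.comap f).subtype := by
      ext x
      constructor
      · rintro ⟨⟨y, hy⟩, hy2, rfl⟩
        have hy3 : f y = 0 := hy2
        refine ⟨⟨y, hy, ?_⟩, hy3, rfl⟩
        show f y ∈ I
        rw [hy3]
        exact I.zero_mem
      · rintro ⟨⟨y, hy⟩, hy2, rfl⟩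
        exact ⟨⟨y, hy.1⟩, hy2, rfl⟩
    rw [← Submodule.finrank_map_subtype_eq _ (LinearMap.ker g),
      ← Submodule.finrank_map_subtype_eq _ (LinearMap.ker g'), e]
  rw [hr] at h2
  rw [hr'] at h3
  omega

/-- If `Φ` maps `U` onto `K^n`, then `U ∩ ker Φ` has codimension `n` in `U`. -/
lemma finrank_inf_ker {ι : Type*} [Fintype ι] (Φ : E →ₗ[K] (ι → K)) (U : Submodule K E)
    [FiniteDimensional K U] (h : U.map Φ = ⊤) :
    Module.finrank K (U ⊓ LinearMap.ker Φ : Submodule K E) + Fintype.card ι =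
      Module.finrank K U := by
  have h1 := finrank_formula Φ U (⊥ : Submodule K (ι → K))
  rw [h, top_sup_eq, finrank_top, Module.finrank_fintype_fun_eq_card, finrank_bot, add_zero,
    Submodule.comap_bot] at h1
  omega

end LinAlg

/-! ### Dimensions of the graded pieces -/

lemma V_eq_restrictSupport (d : ℕ) :
    V K d = restrictSupport K {m : Fin 3 →₀ ℕ | m.degree = d} :=
  homogeneousSubmodule_eq_finsupp_supported (Fin 3) K d

instance finV (d : ℕ) : FiniteDimensional K (V K d) :=
  Module.Finite.iff_fg.2 (homogeneousSubmodule_fg (Fin 3) K d)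

lemma set_eq_antidiag (d : ℕ) : {m : Fin 3 →₀ ℕ | m.degree = d} =
    ((Finset.univ : Finset (Fin 3)).finsuppAntidiag d : Set (Fin 3 →₀ ℕ)) := by
  ext m
  rw [Finset.mem_coe, Finset.mem_finsuppAntidiag, Set.mem_ofPred_eq, Finsupp.degree_eq_sum]
  simp

lemma finrank_V (d : ℕ) : Module.finrank K (V K d) = (d + 2).choose d := by
  rw [V_eq_restrictSupport,
    Module.finrank_eq_nat_card_basis (basisRestrictSupport K {m : Fin 3 →₀ ℕ | m.degree = d}),
    set_eq_antidiag, Nat.card_coe_set_eq, Set.ncard_coe_finset,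
    Finset.card_finsuppAntidiag_nat_eq_choose, Finset.card_univ, Fintype.card_fin]
  congr 1
  omega

instance finPart (I : GradedIdeal K) (i : ℕ) : FiniteDimensional K (I.part i) :=
  Submodule.finiteDimensional_of_le (I.le i)

lemma mem_cube {P : Submodule K (Rg K)} {v : Fin 3 → Rg K} : v ∈ cube P ↔ ∀ i, v i ∈ P := by
  rw [cube, Submodule.mem_pi]
  simp

lemma cube_mono {P P' : Submodule K (Rg K)} (h : P ≤ P') : cube P ≤ cube P' := by
  intro v hv
  rw [mem_cube] at hv ⊢
  exact fun i => h (hv i)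

/-- `P^3 ≃ (Fin 3 → P)`. -/
noncomputable def cubeEquiv (P : Submodule K (Rg K)) : cube P ≃ₗ[K] (Fin 3 → P) where
  toFun v i := ⟨v.1 i, mem_cube.1 v.2 i⟩
  invFun w := ⟨fun i => (w i : Rg K), mem_cube.2 fun i => (w i).2⟩
  map_add' _ _ := rfl
  map_smul' _ _ := rfl
  left_inv _ := rfl
  right_inv _ := rfl

instance finCube (P : Submodule K (Rg K)) [FiniteDimensional K P] :
    FiniteDimensional K (cube P) :=
  Module.Finite.equiv (cubeEquiv P).symm

lemma finrank_cube (P : Submodule K (Rg K)) [FiniteDimensional K P] :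
    Module.finrank K (cube P) = 3 * Module.finrank K P := by
  rw [(cubeEquiv P).finrank_eq, Module.finrank_pi_fintype]
  simp

/-! ### Betti numbers in terms of the dimensions of the cycles -/

/-- The Betti numbers only depend on the Hilbert function and on the dimensions of the spaces of
Koszul cycles. -/
lemma betti_congr {I I' : GradedIdeal K}
    (h : ∀ i, Module.finrank K (I.part i) = Module.finrank K (I'.part i))
    (h1 : ∀ j, z1 I j = z1 I' j) (h2 : ∀ j, z2 I j = z2 I' j) (h3 : ∀ j, z3 I j = z3 I' j) :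
    betti I = betti I' := by
  have b0 : ∀ j, w0 I j = w0 I' j := by
    intro j
    rw [w0, w0]
    have e1 := finrank_formula dot (cube (V K j)) (I.part (j + 1))
    have e2 := finrank_formula dot (cube (V K j)) (I'.part (j + 1))
    have e3 := h1 j
    have e4 := h (j + 1)
    rw [z1, z1] at e3
    omega
  have b1 : ∀ j, w1 I j = w1 I' j := by
    intro j
    rw [w1, w1]
    have e1 := finrank_formula cross (cube (V K j)) (cube (I.part (j + 1)))
    have e2 := finrank_formula cross (cube (V K j)) (cube (I'.part (j + 1)))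
    have e3 := h2 j
    have e4 := h (j + 1)
    rw [z2, z2] at e3
    rw [finrank_cube (I.part (j + 1))] at e1
    rw [finrank_cube (I'.part (j + 1))] at e2
    omega
  have b2 : ∀ j, w2 I j = w2 I' j := by
    intro j
    rw [w2, w2]
    have e1 := finrank_formula diag (V K j) (cube (I.part (j + 1)))
    have e2 := finrank_formula diag (V K j) (cube (I'.part (j + 1)))
    have e3 := h3 j
    have e4 := h (j + 1)
    rw [z3, z3] at e3
    rw [finrank_cube (I.part (j + 1))] at e1
    rw [finrank_cube (I'.part (j + 1))] at e2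
    omega
  funext i j
  match i, j with
  | 0, 0 => simp only [betti, h]
  | 0, j + 1 => simp only [betti, b0]
  | 1, 0 => rfl
  | 1, 1 => simp only [betti, h1, finrank_cube, h]
  | 1, j + 2 => simp only [betti, h1, b1]
  | 2, 0 => rfl
  | 2, 1 => rfl
  | 2, 2 => simp only [betti, h2, finrank_cube, h]
  | 2, j + 3 => simp only [betti, h2, b2]
  | 3, 0 => rfl
  | 3, 1 => rfl
  | 3, 2 => rfl
  | 3, j + 3 => simp only [betti, h3, h]
  | _ + 4, _ => rfl

/-! ### The family of algebras -/

/-- The point `(1, 0, 0)`. -/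
def P1 : Fin 3 → K := ![1, 0, 0]

/-- The point `(0, 1, 0)`. -/
def P2 : Fin 3 → K := ![0, 1, 0]

/-- The point `(1, 1, t)`. -/
def P3 (t : K) : Fin 3 → K := ![1, 1, t]

/-- Evaluation at a point. -/
noncomputable def ev (p : Fin 3 → K) : Rg K →ₗ[K] K := (aeval p).toLinearMap

lemma ev_apply (p : Fin 3 → K) (f : Rg K) : ev p f = eval p f := rfl

/-- The pieces of the ideals of the family. -/
noncomputable def piece (k : ℕ) (t c : K) (i : ℕ) : Submodule K (Rg K) :=
  if i < 2 then ⊥ else if i ≤ k then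
    V K i ⊓ LinearMap.ker (LinearMap.pi fun a : Fin 3 => ev ((![P1, P2, P3 t] : Fin 3 → Fin 3 → K) a))
  else if i = k + 1 then
    V K i ⊓ LinearMap.ker (LinearMap.pi fun _ : Fin 1 => (ev P1 + ev P2 + c • ev (P3 t) : Rg K →ₗ[K] K))
  else V K i

lemma piece_lo {k : ℕ} {t c : K} {i : ℕ} (h : i < 2) : piece k t c i = ⊥ := by
  rw [piece, if_pos h]

lemma piece_mid {k : ℕ} {t c : K} {i : ℕ} (h : 2 ≤ i) (h' : i ≤ k) : piece k t c i =
    V K i ⊓ LinearMap.ker (LinearMap.pi fun a : Fin 3 =>
      ev ((![P1, P2, P3 t] : Fin 3 → Fin 3 → K) a)) := by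
  rw [piece, if_neg (by omega), if_pos h']

lemma piece_top {k : ℕ} {t c : K} (hk : 3 ≤ k) : piece k t c (k + 1) =
    V K (k + 1) ⊓ LinearMap.ker (LinearMap.pi fun _ : Fin 1 =>
      (ev P1 + ev P2 + c • ev (P3 t) : Rg K →ₗ[K] K)) := by
  rw [piece, if_neg (by omega), if_neg (by omega), if_pos rfl]

lemma piece_hi {k : ℕ} {t c : K} {i : ℕ} (hk : 3 ≤ k) (h : k + 2 ≤ i) :
    piece k t c i = V K i := by
  rw [piece, if_neg (by omega), if_neg (by omega), if_neg (by omega)]

lemma mem_mid {k : ℕ} {t c : K} {i : ℕ} (h : 2 ≤ i) (h' : i ≤ k) {f : Rg K} :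
    f ∈ piece k t c i ↔ f ∈ V K i ∧ eval P1 f = 0 ∧ eval P2 f = 0 ∧ eval (P3 t) f = 0 := by
  rw [piece_mid h h', Submodule.mem_inf, LinearMap.mem_ker]
  refine and_congr_right fun _ => ?_
  constructor
  · intro h
    exact ⟨congrFun h 0, congrFun h 1, congrFun h 2⟩
  · rintro ⟨h1, h2, h3⟩
    funext a
    fin_cases a
    · exact h1
    · exact h2
    · exact h3

lemma mem_top {k : ℕ} {t c : K} (hk : 3 ≤ k) {f : Rg K} :
    f ∈ piece k t c (k + 1) ↔
      f ∈ V K (k + 1) ∧ eval P1 f + eval P2 f + c * eval (P3 t) f = 0 := by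
  rw [piece_top hk, Submodule.mem_inf, LinearMap.mem_ker]
  refine and_congr_right fun _ => ?_
  constructor
  · intro h
    exact congrFun h 0
  · intro h
    funext a
    exact h

lemma X_mul_mem {i : ℕ} (j : Fin 3) {f : Rg K} (hf : f ∈ V K i) : X j * f ∈ V K (i + 1) := by
  rw [mem_homogeneousSubmodule] at hf ⊢
  rw [add_comm]
  exact (isHomogeneous_X K j).mul hf

/-- The ideals of the family. -/
noncomputable def fam (k : ℕ) (hk : 3 ≤ k) (t c : K) : GradedIdeal K where
  part := piece k t c
  le i := by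
    unfold piece
    split_ifs
    · exact bot_le
    · exact inf_le_left
    · exact inf_le_left
    · exact le_rfl
  mul i j f hf := by
    by_cases h1 : i < 2
    · rw [piece_lo h1, Submodule.mem_bot] at hf
      rw [hf, mul_zero]
      exact Submodule.zero_mem _
    · by_cases h2 : i < k
      · rw [mem_mid (by omega) h2.le] at hf
        rw [mem_mid (by omega) (by omega)]
        obtain ⟨ha, hb, hc, hd⟩ := hf
        refine ⟨X_mul_mem j ha, ?_, ?_, ?_⟩ <;> simp [hb, hc, hd]
      · by_cases h3 : i = k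
        · subst h3
          rw [mem_mid (by omega) le_rfl] at hf
          rw [mem_top hk]
          obtain ⟨ha, hb, hc, hd⟩ := hf
          refine ⟨X_mul_mem j ha, ?_⟩
          simp [hb, hc, hd]
        · rw [piece_hi hk (by omega)]
          refine X_mul_mem j ?_
          by_cases h4 : i = k + 1
          · subst h4
            exact (mem_top hk |>.1 hf).1
          · rw [piece_hi hk (by omega)] at hf
            exact hf

lemma mono_mem (a b c : ℕ) : (X 0 ^ a * X 1 ^ b * X 2 ^ c : Rg K) ∈ V K (a + b + c) := by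
  rw [mem_homogeneousSubmodule]
  have h := ((isHomogeneous_X_pow (R := K) (0 : Fin 3) a).mul
    (isHomogeneous_X_pow (R := K) (1 : Fin 3) b)).mul (isHomogeneous_X_pow (R := K) (2 : Fin 3) c)
  exact h

lemma mono_mem' {a b d : ℕ} (h : a + b = d) : (X 0 ^ a * X 1 ^ b : Rg K) ∈ V K d := by
  have := mono_mem (K := K) a b 0
  rw [pow_zero, mul_one, add_zero, h] at this
  exact this

lemma fam_mem_GT (k : ℕ) (hk : 3 ≤ k) (t c : K) : fam k hk t c ∈ GT K (T3 k) := by
  intro i
  show Module.finrank K (piece k t c i) + T3 k i = Module.finrank K (V K i)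
  by_cases h0 : i = 0
  · subst h0
    rw [piece_lo (by omega), finrank_bot, finrank_V]
    simp [T3]
  by_cases h1 : i = 1
  · subst h1
    rw [piece_lo (by omega), finrank_bot, finrank_V]
    simp only [T3, one_ne_zero, if_false]
    rw [if_pos (by omega)]
    rfl
  by_cases h2 : i ≤ k
  · have hT : T3 k i = Fintype.card (Fin 3) := by
      rw [T3, if_neg h0, if_pos h2, Fintype.card_fin]
    rw [hT, piece_mid (by omega) h2]
    apply finrank_inf_ker
    rw [eq_top_iff]
    intro w _
    refine ⟨C (w 0) * (X 0 ^ i * X 1 ^ 0) + C (w 1) * (X 0 ^ 0 * X 1 ^ i) +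
      C (w 2 - w 0 - w 1) * (X 0 ^ (i - 1) * X 1 ^ 1), ?_, ?_⟩
    · refine Submodule.add_mem _ (Submodule.add_mem _ ?_ ?_) ?_
      · rw [← smul_eq_C_mul]
        exact Submodule.smul_mem _ _ (mono_mem' (by omega))
      · rw [← smul_eq_C_mul]
        exact Submodule.smul_mem _ _ (mono_mem' (by omega))
      · rw [← smul_eq_C_mul]
        exact Submodule.smul_mem _ _ (mono_mem' (by omega))
    · have hi : i - 1 ≠ 0 := by omega
      funext a
      fin_cases a
      · simp [LinearMap.pi_apply, ev_apply, P1, P2, P3, h0]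
      · simp [LinearMap.pi_apply, ev_apply, P1, P2, P3, h0, hi]
      · simp [LinearMap.pi_apply, ev_apply, P1, P2, P3]
  by_cases h3 : i = k + 1
  · subst h3
    have hT : T3 k (k + 1) = Fintype.card (Fin 1) := by
      rw [T3, if_neg h0, if_neg h2, if_pos rfl, Fintype.card_fin]
    rw [hT, piece_top hk]
    apply finrank_inf_ker
    rw [eq_top_iff]
    intro w _
    refine ⟨C (w 0) * (X 0 ^ (k + 1) * X 1 ^ 0) - C (w 0) * (X 0 ^ k * X 1 ^ 1), ?_, ?_⟩
    · refine Submodule.sub_mem _ ?_ ?_
      · rw [← smul_eq_C_mul]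
        exact Submodule.smul_mem _ _ (mono_mem' (by omega))
      · rw [← smul_eq_C_mul]
        exact Submodule.smul_mem _ _ (mono_mem' (by omega))
    · have hk0 : k ≠ 0 := by omega
      funext a
      fin_cases a
      simp [LinearMap.pi_apply, ev_apply, P1, P2, P3, hk0]
  · rw [piece_hi hk (by omega), T3, if_neg h0, if_neg h2, if_neg h3, add_zero]

/-! ### The Betti tables of the members of the family -/

lemma finrank_eq_of_equiv {E : Type*} [AddCommGroup E] [Module K E] (Φ : E ≃ₗ[K] E)
    (A B : Submodule K E) (h : ∀ x, x ∈ A ↔ Φ x ∈ B) :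
    Module.finrank K A = Module.finrank K B := by
  have e : A.map (Φ : E →ₗ[K] E) = B := by
    ext y
    constructor
    · rintro ⟨x, hx, rfl⟩
      exact (h x).1 hx
    · intro hy
      refine ⟨Φ.symm y, (h _).2 ?_, ?_⟩
      · rw [Φ.apply_symm_apply]
        exact hy
      · exact Φ.apply_symm_apply y
  rw [← e]
  exact (Φ.submoduleMap A).finrank_eq

lemma finrank_piece (k : ℕ) (hk : 3 ≤ k) (t c t' c' : K) (i : ℕ) :
    Module.finrank K ((fam k hk t c).part i) = Module.finrank K ((fam k hk t' c').part i) := by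
  have h1 := fam_mem_GT k hk t c i
  have h2 := fam_mem_GT k hk t' c' i
  omega

@[simp] lemma P1_0 : (P1 : Fin 3 → K) 0 = 1 := rfl
@[simp] lemma P1_1 : (P1 : Fin 3 → K) 1 = 0 := rfl
@[simp] lemma P1_2 : (P1 : Fin 3 → K) 2 = 0 := rfl
@[simp] lemma P2_0 : (P2 : Fin 3 → K) 0 = 0 := rfl
@[simp] lemma P2_1 : (P2 : Fin 3 → K) 1 = 1 := rfl
@[simp] lemma P2_2 : (P2 : Fin 3 → K) 2 = 0 := rfl
@[simp] lemma P3_0 (t : K) : P3 t 0 = 1 := rfl
@[simp] lemma P3_1 (t : K) : P3 t 1 = 1 := rfl
@[simp] lemma P3_2 (t : K) : P3 t 2 = t := rfl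

/-- Componentwise application of linear equivalences. -/
noncomputable def piEquiv (e : Fin 3 → (Rg K ≃ₗ[K] Rg K)) :
    (Fin 3 → Rg K) ≃ₗ[K] (Fin 3 → Rg K) := LinearEquiv.piCongrRight e

lemma piEquiv_apply (e : Fin 3 → (Rg K ≃ₗ[K] Rg K)) (v : Fin 3 → Rg K) (i : Fin 3) :
    piEquiv e v i = e i (v i) := rfl

/-- `τ a = a + a(1,1,0) (x^k + y^k - 2 x^{k-1} y)`. -/
noncomputable def tau (k : ℕ) (_hk : 3 ≤ k) : Rg K ≃ₗ[K] Rg K where
  toFun a := a + (eval (P3 0) a) • (X 0 ^ k + X 1 ^ k - C 2 * (X 0 ^ (k - 1) * X 1))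
  map_add' a b := by
    simp only [map_add, add_smul]
    ring
  map_smul' r a := by
    simp only [smul_eval, RingHom.id_apply, smul_add, mul_smul]
  invFun a := a - (eval (P3 0) a) • (X 0 ^ k + X 1 ^ k - C 2 * (X 0 ^ (k - 1) * X 1))
  left_inv a := by
    have h : eval (P3 0) (X 0 ^ k + X 1 ^ k - C 2 * (X 0 ^ (k - 1) * X 1) : Rg K) = 0 := by
      simp [P3]
      ring
    simp [smul_eval, h]
  right_inv a := by
    have h : eval (P3 0) (X 0 ^ k + X 1 ^ k - C 2 * (X 0 ^ (k - 1) * X 1) : Rg K) = 0 := by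
      simp [P3]
      ring
    simp [smul_eval, h]

lemma tau_apply (k : ℕ) (hk : 3 ≤ k) (a : Rg K) : tau k hk a =
    a + (eval (P3 0) a) • (X 0 ^ k + X 1 ^ k - C 2 * (X 0 ^ (k - 1) * X 1)) := rfl

lemma tau_poly_mem (k : ℕ) (hk : 3 ≤ k) :
    (X 0 ^ k + X 1 ^ k - C 2 * (X 0 ^ (k - 1) * X 1) : Rg K) ∈ V K k := by
  refine Submodule.sub_mem _ (Submodule.add_mem _ ?_ ?_) ?_
  · have := mono_mem' (K := K) (a := k) (b := 0) (d := k) (by omega)
    simpa using this
  · have := mono_mem' (K := K) (a := 0) (b := k) (d := k) (by omega)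
    simpa using this
  · rw [← smul_eq_C_mul]
    refine Submodule.smul_mem _ _ ?_
    have := mono_mem' (K := K) (a := k - 1) (b := 1) (d := k) (by omega)
    simpa using this

lemma mem_V_tau (k : ℕ) (hk : 3 ≤ k) (a : Rg K) : a ∈ V K k ↔ tau k hk a ∈ V K k := by
  rw [tau_apply]
  exact (Submodule.add_mem_iff_left _ (Submodule.smul_mem _ _ (tau_poly_mem k hk))).symm

lemma tau_P1 (k : ℕ) (hk : 3 ≤ k) (a : Rg K) :
    eval P1 (tau k hk a) = eval P1 a + eval (P3 0) a := by
  have h1 : k ≠ 0 := by omega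
  have h2 : k - 1 ≠ 0 := by omega
  rw [tau_apply]
  simp [smul_eval, P1, h1]

lemma tau_P2 (k : ℕ) (hk : 3 ≤ k) (a : Rg K) :
    eval P2 (tau k hk a) = eval P2 a + eval (P3 0) a := by
  have h1 : k ≠ 0 := by omega
  have h2 : k - 1 ≠ 0 := by omega
  rw [tau_apply]
  simp [smul_eval, P2, h1, h2]

/-- The two special members of the family have the same Betti table. -/
lemma betti_zero_one (k : ℕ) (hk : 3 ≤ k) :
    betti (fam k hk (0 : K) 1) = betti (fam k hk (0 : K) 0) := by
  have hsame : ∀ i, i ≠ k + 1 → (fam k hk (0 : K) 1).part i = (fam k hk (0 : K) 0).part i := by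
    intro i hi
    show piece k 0 1 i = piece k 0 0 i
    unfold piece
    rw [if_neg hi, if_neg hi]
  -- the transfer in degree `k + 1`
  have h0 : ∀ f : Rg K, f ∈ (fam k hk (0 : K) 1).part (k + 1) ↔
      f ∈ V K (k + 1) ∧ eval P1 f + eval P2 f + 1 * eval (P3 0) f = 0 := fun f => mem_top hk
  have h1 : ∀ f : Rg K, f ∈ (fam k hk (0 : K) 0).part (k + 1) ↔
      f ∈ V K (k + 1) ∧ eval P1 f + eval P2 f + 0 * eval (P3 0) f = 0 := fun f => mem_top hk
  refine betti_congr (finrank_piece k hk _ _ _ _) ?_ ?_ ?_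
  · intro j
    by_cases hj : j + 1 = k + 1
    · obtain rfl : j = k := by omega
      refine finrank_eq_of_equiv (piEquiv fun _ => tau j hk) _ _ ?_
      intro v
      have hv : v ∈ cube (V K j) ↔ (piEquiv fun _ => tau j hk) v ∈ cube (V K j) := by
        rw [mem_cube, mem_cube]
        exact forall_congr' fun i => mem_V_tau j hk (v i)
      rw [Submodule.mem_inf, Submodule.mem_inf, ← hv]
      refine and_congr_right fun hv' => ?_
      have hw' := hv.1 hv'
      rw [mem_cube] at hv' hw'
      rw [Submodule.mem_comap, Submodule.mem_comap, h0, h1]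
      have hd : ∀ w : Fin 3 → Rg K, (∀ i, w i ∈ V K j) → dot w ∈ V K (j + 1) := by
        intro w hw
        exact Submodule.add_mem _ (Submodule.add_mem _ (X_mul_mem 0 (hw 0)) (X_mul_mem 1 (hw 1)))
          (X_mul_mem 2 (hw 2))
      refine ⟨fun h => ⟨hd _ hw', ?_⟩, fun h => ⟨hd _ hv', ?_⟩⟩
      · obtain ⟨_, h⟩ := h
        refine Eq.trans ?_ h
        simp [dot, piEquiv_apply, tau_P1, tau_P2]
        ring
      · obtain ⟨_, h⟩ := h
        refine Eq.trans ?_ h
        simp [dot, piEquiv_apply, tau_P1, tau_P2]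
        ring
    · rw [z1, z1, hsame _ hj]
  · intro j
    by_cases hj : j + 1 = k + 1
    · obtain rfl : j = k := by omega
      refine finrank_eq_of_equiv (piEquiv fun _ => tau j hk) _ _ ?_
      intro v
      have hv : v ∈ cube (V K j) ↔ (piEquiv fun _ => tau j hk) v ∈ cube (V K j) := by
        rw [mem_cube, mem_cube]
        exact forall_congr' fun i => mem_V_tau j hk (v i)
      rw [Submodule.mem_inf, Submodule.mem_inf, ← hv]
      refine and_congr_right fun hv' => ?_
      have hw' := hv.1 hv'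
      rw [mem_cube] at hv' hw'
      rw [Submodule.mem_comap, Submodule.mem_comap, mem_cube, mem_cube]
      have hd : ∀ w : Fin 3 → Rg K, (∀ i, w i ∈ V K j) → ∀ i, cross w i ∈ V K (j + 1) := by
        intro w hw i
        fin_cases i
        · exact Submodule.sub_mem _ (X_mul_mem 1 (hw 2)) (X_mul_mem 2 (hw 1))
        · exact Submodule.sub_mem _ (X_mul_mem 2 (hw 0)) (X_mul_mem 0 (hw 2))
        · exact Submodule.sub_mem _ (X_mul_mem 0 (hw 1)) (X_mul_mem 1 (hw 0))
      have key : ∀ i, eval P1 (cross v i) + eval P2 (cross v i) + 1 * eval (P3 0) (cross v i) =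
          eval P1 (cross ((piEquiv fun _ => tau j hk) v) i) +
          eval P2 (cross ((piEquiv fun _ => tau j hk) v) i) +
          0 * eval (P3 0) (cross ((piEquiv fun _ => tau j hk) v) i) := by
        intro i
        fin_cases i <;>
        · simp only [cross, LinearMap.coe_mk, AddHom.coe_mk]
          simp [piEquiv_apply, tau_P1, tau_P2]
          try ring
      refine forall_congr' fun i => ?_
      rw [h0, h1, key i]
      exact ⟨fun h => ⟨hd _ hw' i, h.2⟩, fun h => ⟨hd _ hv' i, h.2⟩⟩
    · rw [z2, z2, hsame _ hj]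
  · intro j
    by_cases hj : j + 1 = k + 1
    · obtain rfl : j = k := by omega
      refine finrank_eq_of_equiv (tau j hk) _ _ ?_
      intro a
      rw [Submodule.mem_inf, Submodule.mem_inf, ← mem_V_tau j hk]
      refine and_congr_right fun hv' => ?_
      have hw' := (mem_V_tau j hk a).1 hv'
      rw [Submodule.mem_comap, Submodule.mem_comap, mem_cube, mem_cube]
      have hd : ∀ w : Rg K, w ∈ V K j → ∀ i, diag w i ∈ V K (j + 1) := by
        intro w hw i
        fin_cases i
        · exact X_mul_mem 0 hw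
        · exact X_mul_mem 1 hw
        · exact X_mul_mem 2 hw
      have key : ∀ i, eval P1 (diag a i) + eval P2 (diag a i) + 1 * eval (P3 0) (diag a i) =
          eval P1 (diag (tau j hk a) i) +
          eval P2 (diag (tau j hk a) i) +
          0 * eval (P3 0) (diag (tau j hk a) i) := by
        intro i
        fin_cases i <;>
        · simp only [diag, LinearMap.coe_mk, AddHom.coe_mk]
          simp [tau_P1, tau_P2]
      refine forall_congr' fun i => ?_
      rw [h0, h1, key i]
      exact ⟨fun h => ⟨hd _ hw' i, h.2⟩, fun h => ⟨hd _ hv' i, h.2⟩⟩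
    · rw [z3, z3, hsame _ hj]

/-- The substitution `z ↦ t z`. -/
noncomputable def subT (t : K) : Rg K →ₐ[K] Rg K :=
  aeval (![X 0, X 1, C t * X 2] : Fin 3 → Rg K)

lemma subT_X0 (t : K) : subT t (X 0) = X 0 := by simp [subT]
lemma subT_X1 (t : K) : subT t (X 1) = X 1 := by simp [subT]
lemma subT_X2 (t : K) : subT t (X 2) = C t * X 2 := by simp [subT]

/-- The substitution `z ↦ t z` for `t ≠ 0`. -/
noncomputable def sca (t : K) (ht : t ≠ 0) : Rg K ≃ₐ[K] Rg K :=
  AlgEquiv.ofAlgHom (subT t) (subT t⁻¹)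
    (by
      ext j
      fin_cases j
      · simp [subT]
      · simp [subT]
      · simp only [AlgHom.comp_apply, Fin.reduceFinMk, subT_X2, map_mul, AlgHom.id_apply]
        rw [← mul_assoc, algHom_C, algebraMap_eq, ← C_mul, inv_mul_cancel₀ ht, C_1, one_mul])
    (by
      ext j
      fin_cases j
      · simp [subT]
      · simp [subT]
      · simp only [AlgHom.comp_apply, Fin.reduceFinMk, subT_X2, map_mul, AlgHom.id_apply]
        rw [← mul_assoc, algHom_C, algebraMap_eq, ← C_mul, mul_inv_cancel₀ ht, C_1, one_mul])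

lemma sca_apply (t : K) (ht : t ≠ 0) (f : Rg K) : sca t ht f = subT t f := rfl

lemma eval_subT (t : K) (p : Fin 3 → K) (f : Rg K) :
    eval p (subT t f) = eval ![p 0, p 1, t * p 2] f := by
  have h : (eval p).comp (subT t : Rg K →+* Rg K) = eval ![p 0, p 1, t * p 2] := by
    refine MvPolynomial.ringHom_ext ?_ ?_
    · intro r
      simp [subT]
    · intro j
      fin_cases j <;> simp [subT]
  exact congrArg (fun φ : Rg K →+* K => φ f) h

lemma eval_sca_P1 (t : K) (ht : t ≠ 0) (f : Rg K) : eval P1 (sca t ht f) = eval P1 f := by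
  rw [sca_apply, eval_subT]
  simp [P1]

lemma eval_sca_P2 (t : K) (ht : t ≠ 0) (f : Rg K) : eval P2 (sca t ht f) = eval P2 f := by
  rw [sca_apply, eval_subT]
  simp [P2]

lemma eval_sca_P3 (t : K) (ht : t ≠ 0) (f : Rg K) :
    eval (P3 1) (sca t ht f) = eval (P3 t) f := by
  rw [sca_apply, eval_subT]
  simp [P3]

lemma subT_mem (t : K) {i : ℕ} {f : Rg K} (hf : f ∈ V K i) : subT t f ∈ V K i := by
  rw [mem_homogeneousSubmodule] at hf ⊢
  have h := hf.aeval (![X 0, X 1, C t * X 2] : Fin 3 → Rg K) (n := 1) (by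
    intro j
    fin_cases j
    · exact isHomogeneous_X K 0
    · exact isHomogeneous_X K 1
    · have := (isHomogeneous_C (Fin 3) t).mul (isHomogeneous_X K (2 : Fin 3))
      rw [zero_add] at this
      exact this)
  rw [one_mul] at h
  exact h

lemma sca_mem (t : K) (ht : t ≠ 0) {i : ℕ} {f : Rg K} : f ∈ V K i ↔ sca t ht f ∈ V K i := by
  constructor
  · exact fun h => subT_mem t h
  · intro h
    have h2 := subT_mem t⁻¹ h
    have h3 : subT t⁻¹ (sca t ht f) = f := (sca t ht).symm_apply_apply f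
    rw [h3] at h2
    exact h2

lemma sca_mem_fam (k : ℕ) (hk : 3 ≤ k) (t : K) (ht : t ≠ 0) {i : ℕ} {f : Rg K} :
    f ∈ (fam k hk t 0).part i ↔ sca t ht f ∈ (fam k hk 1 0).part i := by
  show f ∈ piece k t 0 i ↔ sca t ht f ∈ piece k 1 0 i
  by_cases h1 : i < 2
  · rw [piece_lo h1, piece_lo h1, Submodule.mem_bot, Submodule.mem_bot, map_eq_zero_iff _
      (sca t ht).injective]
  by_cases h2 : i ≤ k
  · rw [mem_mid (by omega) h2, mem_mid (by omega) h2, ← sca_mem, eval_sca_P1, eval_sca_P2,
      eval_sca_P3]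
  by_cases h3 : i = k + 1
  · subst h3
    rw [mem_top hk, mem_top hk, ← sca_mem, eval_sca_P1, eval_sca_P2, eval_sca_P3]
  · rw [piece_hi hk (by omega), piece_hi hk (by omega), ← sca_mem]

lemma C_mul_mem_iff {P : Submodule K (Rg K)} {t : K} (ht : t ≠ 0) {f : Rg K} :
    C t * f ∈ P ↔ f ∈ P := by
  rw [← smul_eq_C_mul]
  exact P.smul_mem_iff ht

/-- Multiplication by a nonzero constant. -/
noncomputable def smulE (t : K) (ht : t ≠ 0) : Rg K ≃ₗ[K] Rg K :=
  LinearEquiv.smulOfNeZero K (Rg K) t ht

lemma smulE_apply (t : K) (ht : t ≠ 0) (f : Rg K) : smulE t ht f = C t * f := by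
  rw [← smul_eq_C_mul]
  rfl

lemma betti_scale (k : ℕ) (hk : 3 ≤ k) (t : K) (ht : t ≠ 0) :
    betti (fam k hk t 0) = betti (fam k hk (1 : K) 0) := by
  have hS : ∀ (i : ℕ) (f : Rg K), f ∈ V K i ↔ (sca t ht).toLinearEquiv f ∈ V K i :=
    fun i f => sca_mem t ht
  have hT : ∀ (i : ℕ) (f : Rg K), f ∈ V K i ↔
      ((sca t ht).toLinearEquiv.trans (smulE t ht)) f ∈ V K i := by
    intro i f
    rw [LinearEquiv.trans_apply, smulE_apply, C_mul_mem_iff ht]
    exact sca_mem t ht
  refine betti_congr (finrank_piece k hk _ _ _ _) ?_ ?_ ?_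
  · intro j
    refine finrank_eq_of_equiv (piEquiv ![(sca t ht).toLinearEquiv, (sca t ht).toLinearEquiv,
      (sca t ht).toLinearEquiv.trans (smulE t ht)]) _ _ ?_
    intro v
    rw [Submodule.mem_inf, Submodule.mem_inf, mem_cube, mem_cube, Submodule.mem_comap,
      Submodule.mem_comap]
    refine and_congr ?_ ?_
    · refine forall_congr' fun i => ?_
      fin_cases i
      · exact hS j _
      · exact hS j _
      · exact hT j _
    · rw [sca_mem_fam k hk t ht]
      have e : sca t ht (dot v) = dot (piEquiv ![(sca t ht).toLinearEquiv,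
          (sca t ht).toLinearEquiv, (sca t ht).toLinearEquiv.trans (smulE t ht)] v) := by
        simp only [dot, LinearMap.coe_mk, AddHom.coe_mk, map_add, map_mul, sca_apply, subT_X0,
          subT_X1, subT_X2, piEquiv_apply]
        simp [sca_apply, smulE_apply]
        ring
      rw [e]
  · intro j
    refine finrank_eq_of_equiv (piEquiv ![(sca t ht).toLinearEquiv.trans (smulE t ht),
      (sca t ht).toLinearEquiv.trans (smulE t ht), (sca t ht).toLinearEquiv]) _ _ ?_
    intro v
    rw [Submodule.mem_inf, Submodule.mem_inf, mem_cube, mem_cube, Submodule.mem_comap,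
      Submodule.mem_comap, mem_cube, mem_cube]
    refine and_congr ?_ ?_
    · refine forall_congr' fun i => ?_
      fin_cases i
      · exact hT j _
      · exact hT j _
      · exact hS j _
    · refine forall_congr' fun i => ?_
      rw [sca_mem_fam k hk t ht]
      fin_cases i
      · have e : sca t ht (cross v 0) = cross (piEquiv ![
            (sca t ht).toLinearEquiv.trans (smulE t ht),
            (sca t ht).toLinearEquiv.trans (smulE t ht), (sca t ht).toLinearEquiv] v) 0 := by
          simp [cross, piEquiv_apply, smulE_apply, sca_apply, subT_X0, subT_X1, subT_X2]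
          ring
        exact iff_of_eq (congrArg (· ∈ (fam k hk 1 0).part (j + 1)) e)
      · have e : sca t ht (cross v 1) = cross (piEquiv ![
            (sca t ht).toLinearEquiv.trans (smulE t ht),
            (sca t ht).toLinearEquiv.trans (smulE t ht), (sca t ht).toLinearEquiv] v) 1 := by
          simp [cross, piEquiv_apply, smulE_apply, sca_apply, subT_X0, subT_X1, subT_X2]
          ring
        exact iff_of_eq (congrArg (· ∈ (fam k hk 1 0).part (j + 1)) e)
      · have e : C t * sca t ht (cross v 2) = cross (piEquiv ![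
            (sca t ht).toLinearEquiv.trans (smulE t ht),
            (sca t ht).toLinearEquiv.trans (smulE t ht), (sca t ht).toLinearEquiv] v) 2 := by
          simp [cross, piEquiv_apply, smulE_apply, sca_apply, subT_X0, subT_X1, subT_X2]
          ring
        exact (C_mul_mem_iff ht).symm.trans
          (iff_of_eq (congrArg (· ∈ (fam k hk 1 0).part (j + 1)) e))
  · intro j
    refine finrank_eq_of_equiv (sca t ht).toLinearEquiv _ _ ?_
    intro a
    rw [Submodule.mem_inf, Submodule.mem_inf, ← hS, Submodule.mem_comap, Submodule.mem_comap,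
      mem_cube, mem_cube]
    refine and_congr_right fun _ => forall_congr' fun i => ?_
    rw [sca_mem_fam k hk t ht]
    fin_cases i
    · have e : sca t ht (diag a 0) = diag ((sca t ht).toLinearEquiv a) 0 := by
        simp [diag, sca_apply, subT_X0]
      exact iff_of_eq (congrArg (· ∈ (fam k hk 1 0).part (j + 1)) e)
    · have e : sca t ht (diag a 1) = diag ((sca t ht).toLinearEquiv a) 1 := by
        simp [diag, sca_apply, subT_X1]
      exact iff_of_eq (congrArg (· ∈ (fam k hk 1 0).part (j + 1)) e)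
    · have e : sca t ht (diag a 2) = C t * diag ((sca t ht).toLinearEquiv a) 2 := by
        simp [diag, sca_apply, subT_X2]
        ring
      exact (iff_of_eq (congrArg (· ∈ (fam k hk 1 0).part (j + 1)) e)).trans (C_mul_mem_iff ht)

lemma dot_cross (w : Fin 3 → Rg K) : dot (cross w) = 0 := by
  simp [dot, cross]
  ring

lemma dot_mem {P : Submodule K (Rg K)} {w : Fin 3 → Rg K}
    (h : ∀ j (l : Fin 3), X l * w j ∈ P) : dot w ∈ P :=
  Submodule.add_mem _ (Submodule.add_mem _ (h 0 0) (h 1 1)) (h 2 2)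

lemma smulX_mem (c : K) (j : Fin 3) : C c * (X j : Rg K) ∈ V K 1 := by
  rw [← smul_eq_C_mul]
  exact Submodule.smul_mem _ _ ((mem_homogeneousSubmodule _ _).2 (isHomogeneous_X K j))

lemma cross_mem_V {j : ℕ} {w : Fin 3 → Rg K} (hw : ∀ i, w i ∈ V K j) (i : Fin 3) :
    cross w i ∈ V K (j + 1) := by
  fin_cases i
  · exact Submodule.sub_mem _ (X_mul_mem 1 (hw 2)) (X_mul_mem 2 (hw 1))
  · exact Submodule.sub_mem _ (X_mul_mem 2 (hw 0)) (X_mul_mem 0 (hw 2))
  · exact Submodule.sub_mem _ (X_mul_mem 0 (hw 1)) (X_mul_mem 1 (hw 0))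

lemma betti_13 (k : ℕ) (hk : 3 ≤ k) : betti (fam k hk (1 : K) 0) 1 3 = 0 := by
  show Module.finrank K
      (cube (V K (1 + 1)) ⊓ ((fam k hk (1 : K) 0).part (1 + 2)).comap dot :
        Submodule K (Fin 3 → Rg K)) -
      Module.finrank K ((cube (V K 1)).map cross ⊔ cube ((fam k hk (1 : K) 0).part (1 + 1)) :
        Submodule K (Fin 3 → Rg K)) = 0
  rw [Nat.sub_eq_zero_iff_le]
  refine Submodule.finrank_mono ?_
  rintro v ⟨hv1, hv2⟩
  have hv1' : ∀ i, v i ∈ V K 2 := mem_cube.1 hv1
  have hv3 := (mem_mid (by omega) hk).1 (Submodule.mem_comap.1 hv2)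
  obtain ⟨-, h1, h2, h3⟩ := hv3
  have h1' : eval P1 (v 0) = 0 := by simpa [dot] using h1
  have h2' : eval P2 (v 1) = 0 := by simpa [dot] using h2
  have h3' : eval (P3 1) (v 0) + eval (P3 1) (v 1) + eval (P3 1) (v 2) = 0 := by
    simpa [dot] using h3
  set α1 := eval P1 (v 1) with hα1
  set α2 := eval P1 (v 2) with hα2
  set β0 := eval P2 (v 0) with hβ0
  set β2 := eval P2 (v 2) with hβ2
  set γ1 := eval (P3 1) (v 1) with hγ1
  set γ2 := eval (P3 1) (v 2) with hγ2
  set w : Fin 3 → Rg K := ![C (-β2) * X 1 + C β2 * X 2, C α2 * X 0 + C (γ2 - α2) * X 2,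
    C (-α1) * X 0 + C β0 * X 1 + C (α1 - β0 - γ1) * X 2] with hw
  have hwm : ∀ i, w i ∈ V K 1 := by
    intro i
    fin_cases i
    · exact Submodule.add_mem _ (smulX_mem _ _) (smulX_mem _ _)
    · exact Submodule.add_mem _ (smulX_mem _ _) (smulX_mem _ _)
    · exact Submodule.add_mem _ (Submodule.add_mem _ (smulX_mem _ _) (smulX_mem _ _))
        (smulX_mem _ _)
  have hvw : v = cross w + (v - cross w) := by abel
  rw [hvw]
  refine Submodule.add_mem_sup ⟨w, mem_cube.2 hwm, rfl⟩ (mem_cube.2 fun i => ?_)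
  rw [show (fam k hk (1 : K) 0).part (1 + 1) = piece k 1 0 2 from rfl, mem_mid le_rfl (by omega)]
  refine ⟨Submodule.sub_mem _ (hv1' i) (cross_mem_V hwm i), ?_⟩
  fin_cases i
  · refine ⟨?_, ?_, ?_⟩
    · simp [cross, hw, h1']
    · simp [cross, hw, ← hβ0]
    · have : eval (P3 1) (v 0) = - γ1 - γ2 := by linear_combination h3'
      simp [cross, hw, this]
      ring
  · refine ⟨?_, ?_, ?_⟩
    · simp [cross, hw, ← hα1]
    · simp [cross, hw, h2']
    · simp [cross, hw, ← hγ1]
      ring
  · refine ⟨?_, ?_, ?_⟩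
    · simp [cross, hw, ← hα2]
    · simp [cross, hw, ← hβ2]
    · simp [cross, hw, ← hγ2]

lemma betti_3 (k : ℕ) (hk : 3 ≤ k) : 1 ≤ betti (fam k hk (1 : K) 0) 3 (k + 3) := by
  show 1 ≤ Module.finrank K (V K k ⊓ (cube ((fam k hk (1 : K) 0).part (k + 1))).comap diag :
      Submodule K (Rg K)) - Module.finrank K ((fam k hk (1 : K) 0).part k)
  have hlt : (fam k hk (1 : K) 0).part k <
      (V K k ⊓ (cube ((fam k hk (1 : K) 0).part (k + 1))).comap diag : Submodule K (Rg K)) := by
    rw [SetLike.lt_iff_le_and_exists]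
    constructor
    · intro f hf
      refine ⟨(fam k hk (1 : K) 0).le k hf, mem_cube.2 fun i => ?_⟩
      fin_cases i
      · exact (fam k hk (1 : K) 0).mul k 0 f hf
      · exact (fam k hk (1 : K) 0).mul k 1 f hf
      · exact (fam k hk (1 : K) 0).mul k 2 f hf
    · have hm : (X 0 ^ (k - 1) * X 1 ^ 1 : Rg K) ∈ V K k := mono_mem' (by omega)
      have hk1 : k - 1 ≠ 0 := by omega
      refine ⟨X 0 ^ (k - 1) * X 1 ^ 1, ⟨hm, mem_cube.2 fun i => ?_⟩, ?_⟩
      · rw [show (fam k hk (1 : K) 0).part (k + 1) = piece k 1 0 (k + 1) from rfl, mem_top hk]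
        fin_cases i
        · refine ⟨X_mul_mem 0 hm, ?_⟩
          simp [diag]
        · refine ⟨X_mul_mem 1 hm, ?_⟩
          simp [diag, hk1]
        · refine ⟨X_mul_mem 2 hm, ?_⟩
          simp [diag]
      · intro h
        have h' := ((mem_mid (by omega) le_rfl).1 h).2.2.2
        simp at h'
  have := Submodule.finrank_lt_finrank_of_lt hlt
  omega

/-! ### The limit of the family -/

/-- The frames used in the degeneration. -/
noncomputable def moved (k : ℕ) (t : K) (i : ℕ) (f : Rg K) : Rg K :=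
  if 2 ≤ i ∧ i ≤ k then f - C (eval (P3 t) f) * (X 0 ^ (i - 1) * X 1 ^ 1) else f

lemma moved_frame (k : ℕ) (hk : 3 ≤ k) (t : K) {r : ℕ → ℕ} {b : (i : ℕ) → Fin (r i) → Rg K}
    (hb : IsFrame (fam k hk (0 : K) 0) b) :
    IsFrame (fam k hk t 0) (fun i j => moved k t i (b i j)) := by
  intro i
  obtain ⟨hli, hsp⟩ := hb i
  by_cases hi : 2 ≤ i ∧ i ≤ k
  · -- the linear map
    let L : Rg K →ₗ[K] Rg K :=
      { toFun := fun f => f - C (eval (P3 t) f) * (X 0 ^ (i - 1) * X 1 ^ 1)
        map_add' := by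
          intro f g
          simp only [map_add]
          ring
        map_smul' := by
          intro r f
          rw [smul_eval, C_mul, smul_sub, RingHom.id_apply, smul_eq_C_mul, smul_eq_C_mul]
          ring }
    have hL : ∀ f, moved k t i f = L f := by
      intro f
      rw [moved, if_pos hi]
      rfl
    have hLf : ∀ f, L f = f - C (eval (P3 t) f) * (X 0 ^ (i - 1) * X 1 ^ 1) := fun f => rfl
    have hi1 : i - 1 ≠ 0 := by omega
    -- injectivity on the piece
    have hinj : ∀ f ∈ (fam k hk (0 : K) 0).part i, L f = 0 → f = 0 := by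
      intro f hf h0
      have h3 := ((mem_mid hi.1 hi.2).1 hf).2.2.2
      rw [hLf] at h0
      have h4 := congrArg (eval (P3 0)) h0
      simp [h3] at h4
      rw [h4] at h0
      simpa using h0
    have hmem : ∀ f ∈ (fam k hk (0 : K) 0).part i, L f ∈ (fam k hk t 0).part i := by
      intro f hf
      have h3 := (mem_mid hi.1 hi.2).1 hf
      obtain ⟨ha, hb, hc, -⟩ := h3
      refine (mem_mid hi.1 hi.2).2 ⟨?_, ?_, ?_, ?_⟩
      · rw [hLf]
        refine Submodule.sub_mem _ ha ?_
        rw [← smul_eq_C_mul]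
        exact Submodule.smul_mem _ _ (mono_mem' (by omega))
      · rw [hLf]
        simp [hb]
      · rw [hLf]
        simp [hc, hi1]
      · rw [hLf]
        simp
    have hli' : LinearIndependent K (fun j => moved k t i (b i j)) := by
      have : (fun j => moved k t i (b i j)) = L ∘ b i := by
        funext j
        exact hL _
      rw [this]
      refine hli.map ?_
      rw [hsp, Submodule.disjoint_def]
      intro f hf h0
      exact hinj f hf h0
    refine ⟨hli', ?_⟩
    refine Submodule.eq_of_le_of_finrank_eq ?_ ?_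
    · rw [Submodule.span_le]
      rintro _ ⟨j, rfl⟩
      show moved k t i (b i j) ∈ (fam k hk t 0).part i
      rw [hL]
      refine hmem _ ?_
      rw [← hsp]
      exact Submodule.subset_span ⟨j, rfl⟩
    · rw [finrank_span_eq_card hli', finrank_piece k hk t 0 0 0 i, ← hsp,
        finrank_span_eq_card hli]
  · have e : (fun j => moved k t i (b i j)) = b i := by
      funext j
      rw [moved, if_neg hi]
    show LinearIndependent K (fun j => moved k t i (b i j)) ∧
      Submodule.span K (Set.range (fun j => moved k t i (b i j))) = (fam k hk t 0).part i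
    rw [e]
    refine ⟨hli, hsp.trans ?_⟩
    show piece k 0 0 i = piece k t 0 i
    unfold piece
    by_cases h1 : i < 2
    · rw [if_pos h1, if_pos h1]
    · have h2 : ¬ i ≤ k := by omega
      rw [if_neg h1, if_neg h1, if_neg h2, if_neg h2, zero_smul, zero_smul]

lemma zero_mem_closure [Infinite K] (k : ℕ) (hk : 3 ≤ k) :
    fam k hk (0 : K) 0 ∈ zariskiClosure (T3 k) (stratum (T3 k) (betti (fam k hk (1 : K) 0))) := by
  classical
  refine ⟨fam_mem_GT k hk 0 0, fun P hP b hb => ?_⟩
  -- the polynomial in `t`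
  let g : (Σ i, Fin (rk K (T3 k) i) × (Fin 3 →₀ ℕ)) → Polynomial K := fun s =>
    if 2 ≤ s.1 ∧ s.1 ≤ k then
      Polynomial.C (coeff s.2.2 (b s.1 s.2.1)) -
        (aeval (![Polynomial.C 1, Polynomial.C 1, Polynomial.X] : Fin 3 → Polynomial K)
          (b s.1 s.2.1)) *
        Polynomial.C (coeff s.2.2 (X 0 ^ (s.1 - 1) * X 1 ^ 1 : Rg K))
    else Polynomial.C (coeff s.2.2 (b s.1 s.2.1))
  have hg : ∀ (t : K) s, Polynomial.eval t (g s) =
      coeff s.2.2 (moved k t s.1 (b s.1 s.2.1)) := by
    intro t s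
    have h1 : Polynomial.eval t (aeval (![Polynomial.C 1, Polynomial.C 1, Polynomial.X] :
        Fin 3 → Polynomial K) (b s.1 s.2.1)) = eval (P3 t) (b s.1 s.2.1) := by
      have h : ((Polynomial.evalRingHom t).comp (aeval (![Polynomial.C 1, Polynomial.C 1,
          Polynomial.X] : Fin 3 → Polynomial K) : Rg K →ₐ[K] Polynomial K).toRingHom) =
          eval (P3 t) := by
        refine MvPolynomial.ringHom_ext ?_ ?_
        · intro r
          simp
        · intro j
          fin_cases j <;> simp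
      exact congrArg (fun φ : Rg K →+* K => φ (b s.1 s.2.1)) h
    by_cases hs : 2 ≤ s.1 ∧ s.1 ≤ k
    · simp only [g, if_pos hs, moved, Polynomial.eval_sub, Polynomial.eval_mul,
        Polynomial.eval_C, h1, coeff_sub, coeff_C_mul]
    · simp only [g, if_neg hs, moved, Polynomial.eval_C]
  have heval : ∀ t : K, Polynomial.eval t (aeval g P) =
      frameEval P (fun i j => moved k t i (b i j)) := by
    intro t
    have h : ((Polynomial.evalRingHom t).comp (aeval g :
        MvPolynomial (Σ i, Fin (rk K (T3 k) i) × (Fin 3 →₀ ℕ)) K →ₐ[K] Polynomial K).toRingHom) =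
        eval (fun s : Σ i, Fin (rk K (T3 k) i) × (Fin 3 →₀ ℕ) =>
          coeff s.2.2 (moved k t s.1 (b s.1 s.2.1))) := by
      refine MvPolynomial.ringHom_ext ?_ ?_
      · intro r
        simp
      · intro s
        simp [hg]
    exact congrArg (fun φ : MvPolynomial (Σ i, Fin (rk K (T3 k) i) × (Fin 3 →₀ ℕ)) K →+* K => φ P) h
  have hz : aeval g P = 0 := by
    by_contra hne
    have hfin : {t : K | Polynomial.eval t (aeval g P) = 0}.Finite := by
      refine Set.Finite.subset (aeval g P : Polynomial K).roots.toFinset.finite_toSet ?_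
      intro t ht
      rw [Finset.mem_coe, Multiset.mem_toFinset, Polynomial.mem_roots hne]
      exact ht
    have hinf : {t : K | t ≠ 0}.Infinite := by
      have : {t : K | t ≠ 0} = {0}ᶜ := rfl
      rw [this]
      exact (Set.finite_singleton (0 : K)).infinite_compl
    refine hinf (hfin.subset ?_)
    intro t ht
    show Polynomial.eval t (aeval g P) = 0
    rw [heval t]
    exact hP (fam k hk t 0) ⟨fam_mem_GT k hk t 0, betti_scale k hk t ht⟩ _ (moved_frame k hk t hb)
  have h0 := heval 0
  rw [hz, Polynomial.eval_zero] at h0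
  have hb0 : (fun i j => moved k (0 : K) i (b i j)) = b := by
    funext i j
    by_cases hi : 2 ≤ i ∧ i ≤ k
    · have hm : b i j ∈ (fam k hk (0 : K) 0).part i := by
        rw [← (hb i).2]
        exact Submodule.subset_span ⟨j, rfl⟩
      have h3 := ((mem_mid hi.1 hi.2).1 hm).2.2.2
      rw [moved, if_pos hi, h3, C_0, zero_mul, sub_zero]
    · rw [moved, if_neg hi]
  rw [hb0] at h0
  exact h0.symm

/-! ### The functional defined by a frame -/

/-- The monomials of degree `d`. -/
abbrev Mon (d : ℕ) : Type :=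
  {m : Fin 3 →₀ ℕ // m ∈ (Finset.univ : Finset (Fin 3)).finsuppAntidiag d}

lemma card_Mon (d : ℕ) : Fintype.card (Mon d) = Module.finrank K (V K d) := by
  rw [Fintype.card_coe, finrank_V, Finset.card_finsuppAntidiag_nat_eq_choose, Finset.card_univ,
    Fintype.card_fin]
  congr 1
  omega

/-- The coefficient vector. -/
noncomputable def cv {r d : ℕ} (e : Option (Fin r) ≃ Mon d) :
    Rg K →ₗ[K] (Option (Fin r) → K) where
  toFun f j := coeff (e j).1 f
  map_add' f g := by
    funext j
    simp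
  map_smul' c f := by
    funext j
    simp

lemma cv_inj {r d : ℕ} (e : Option (Fin r) ≃ Mon d) {f : Rg K} (hf : f ∈ V K d)
    (h : cv e f = 0) : f = 0 := by
  ext m
  rw [coeff_zero]
  by_cases hm : m ∈ (Finset.univ : Finset (Fin 3)).finsuppAntidiag d
  · have h1 := congrFun h (e.symm ⟨m, hm⟩)
    simpa [cv] using h1
  · rw [V_eq_restrictSupport, mem_restrictSupport_iff] at hf
    by_contra hne
    apply hm
    have h2 : m ∈ ({m : Fin 3 →₀ ℕ | m.degree = d} : Set (Fin 3 →₀ ℕ)) :=
      hf (Finset.mem_coe.2 (mem_support_iff.2 hne))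
    rw [set_eq_antidiag] at h2
    exact h2

/-- The matrix of the coefficients of `f` and of the members of `b`. -/
noncomputable def mat {r d : ℕ} (e : Option (Fin r) ≃ Mon d) (b : Fin r → Rg K) (f : Rg K) :
    Matrix (Option (Fin r)) (Option (Fin r)) K := fun i j => coeff (e j).1 (i.elim f b)

lemma mat_eq {r d : ℕ} (e : Option (Fin r) ≃ Mon d) (b : Fin r → Rg K) (f : Rg K) :
    mat e b f = (mat e b 0).updateRow none (cv e f) := by
  ext i j
  cases i with
  | none => rw [Matrix.updateRow_self]; rfl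
  | some a => rw [Matrix.updateRow_ne (by simp)]; rfl

/-- The functional `f ↦ det (b, f)`. -/
noncomputable def phi {r d : ℕ} (e : Option (Fin r) ≃ Mon d) (b : Fin r → Rg K) :
    Rg K →ₗ[K] K where
  toFun f := (mat e b f).det
  map_add' f g := by
    rw [mat_eq, mat_eq e b f, mat_eq e b g, map_add, Matrix.det_updateRow_add]
  map_smul' c f := by
    rw [mat_eq, mat_eq e b f, map_smul, Matrix.det_updateRow_smul, RingHom.id_apply, smul_eq_mul]

lemma phi_eq_zero_iff {r d : ℕ} (e : Option (Fin r) ≃ Mon d) {b : Fin r → Rg K}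
    (hb : LinearIndependent K b) (hbV : ∀ j, b j ∈ V K d) {f : Rg K} (hf : f ∈ V K d) :
    phi e b f = 0 ↔ f ∈ Submodule.span K (Set.range b) := by
  have h1 : phi e b f ≠ 0 ↔ LinearIndependent K (fun i => (mat e b f) i) := by
    rw [← isUnit_iff_ne_zero]
    show IsUnit (mat e b f).det ↔ _
    rw [← Matrix.isUnit_iff_isUnit_det]
    exact Matrix.linearIndependent_rows_iff_isUnit.symm
  have h2 : (fun i => (mat e b f) i) = cv e ∘ (fun i : Option (Fin r) => i.elim f b) := rfl
  have h3 : Disjoint (Submodule.span K (Set.range (fun i : Option (Fin r) => i.elim f b)))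
      (LinearMap.ker (cv (K := K) e)) := by
    rw [Submodule.disjoint_def]
    intro g hg h0
    refine cv_inj e ?_ h0
    refine (Submodule.span_le.2 ?_) hg
    rintro _ ⟨i, rfl⟩
    cases i with
    | none => exact hf
    | some a => exact hbV a
  rw [h2, LinearMap.linearIndependent_iff_of_disjoint _ h3, linearIndependent_option] at h1
  have h4 : (fun i : Option (Fin r) => i.elim f b) ∘ (some : Fin r → Option (Fin r)) = b := rfl
  rw [h4] at h1
  have h5 : phi e b f ≠ 0 ↔ f ∉ Submodule.span K (Set.range b) :=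
    h1.trans ⟨fun h => h.2, fun h => ⟨hb, h⟩⟩
  exact not_iff_not.1 h5

lemma pow_mem_part (I : GradedIdeal K) (j : Fin 3) (n : ℕ) : ∀ {i : ℕ} {f : Rg K},
    f ∈ I.part i → X j ^ n * f ∈ I.part (i + n) := by
  induction n with
  | zero =>
    intro i f hf
    rw [pow_zero, one_mul]
    exact hf
  | succ n ih =>
    intro i f hf
    have h := ih (I.mul i j f hf)
    rw [pow_succ, mul_assoc, show i + (n + 1) = i + 1 + n by ring]
    exact h

lemma mul_mem_part (I : GradedIdeal K) {i d : ℕ} {f g : Rg K} (hf : f ∈ I.part i)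
    (hg : g ∈ V K d) : g * f ∈ I.part (i + d) := by
  rw [V_eq_restrictSupport, mem_restrictSupport_iff] at hg
  rw [g.as_sum, Finset.sum_mul]
  refine Submodule.sum_mem _ fun m hm => ?_
  have hd : m.degree = d := hg hm
  rw [Finsupp.degree_eq_sum, Fin.sum_univ_three] at hd
  rw [monomial_eq, Finsupp.prod_fintype _ _ (fun _ => pow_zero _), Fin.prod_univ_three,
    mul_assoc, ← smul_eq_C_mul, mul_assoc, mul_assoc, ← hd]
  refine Submodule.smul_mem _ _ ?_
  have h := pow_mem_part I 0 (m 0) (pow_mem_part I 1 (m 1) (pow_mem_part I 2 (m 2) hf))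
  rw [show i + (m 0 + m 1 + m 2) = i + m 2 + m 1 + m 0 by ring]
  exact h

/-! ### The equation satisfied by the stratum -/

/-- The quadrics `x^2, y^2, x y`. -/
noncomputable def qq : Fin 3 → Rg K := ![X 0 ^ 2 * X 1 ^ 0, X 0 ^ 0 * X 1 ^ 2, X 0 ^ 1 * X 1 ^ 1]

/-- The forms `x^{k-1}, y^{k-1}, x^{k-2} y`. -/
noncomputable def gg (k : ℕ) : Fin 3 → Rg K :=
  ![X 0 ^ (k - 1) * X 1 ^ 0, X 0 ^ 0 * X 1 ^ (k - 1), X 0 ^ (k - 2) * X 1 ^ 1]

lemma qq_mem (a : Fin 3) : (qq a : Rg K) ∈ V K 2 := by
  fin_cases a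
  · exact mono_mem' rfl
  · exact mono_mem' rfl
  · exact mono_mem' rfl

lemma gg_mem (k : ℕ) (hk : 3 ≤ k) (a : Fin 3) : (gg k a : Rg K) ∈ V K (k - 1) := by
  fin_cases a
  · exact mono_mem' (by omega)
  · exact mono_mem' (by omega)
  · exact mono_mem' (by omega)

lemma V_mul {i j : ℕ} {f g : Rg K} (hf : f ∈ V K i) (hg : g ∈ V K j) : f * g ∈ V K (i + j) := by
  rw [mem_homogeneousSubmodule] at hf hg ⊢
  exact hf.mul hg

/-- The combinations of the quadrics. -/
noncomputable def comb : (Fin 3 → K) →ₗ[K] Rg K where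
  toFun c := ∑ a, c a • qq a
  map_add' c c' := by
    simp [Finset.sum_add_distrib, add_smul]
  map_smul' r c := by
    simp [Finset.smul_sum, mul_smul]

lemma comb_inj : Function.Injective (comb : (Fin 3 → K) →ₗ[K] Rg K) := by
  rw [injective_iff_map_eq_zero]
  intro c hc
  have h : ∀ p : Fin 3 → K, c 0 * p 0 ^ 2 + c 1 * p 1 ^ 2 + c 2 * (p 0 * p 1) = 0 := by
    intro p
    have := congrArg (eval p) hc
    simpa [comb, Fin.sum_univ_three, qq, smul_eval] using this
  have h0 := h ![1, 0, 0]
  have h1 := h ![0, 1, 0]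
  have h2 := h ![1, 1, 0]
  simp at h0 h1 h2
  funext a
  fin_cases a
  · exact h0
  · exact h1
  · simpa [h0, h1] using h2

/-- The linear form with coefficients `c`. -/
noncomputable def lin (c : Fin 3 → K) : Rg K := C (c 0) * X 0 + C (c 1) * X 1 + C (c 2) * X 2

lemma lin_mem (c : Fin 3 → K) : lin c ∈ V K 1 :=
  Submodule.add_mem _ (Submodule.add_mem _ (smulX_mem _ _) (smulX_mem _ _)) (smulX_mem _ _)

lemma lin_ne (c : Fin 3 → K) (hc : c ≠ 0) : lin c ≠ 0 := by
  intro h
  apply hc
  have h' : ∀ p : Fin 3 → K, c 0 * p 0 + c 1 * p 1 + c 2 * p 2 = 0 := by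
    intro p
    have := congrArg (eval p) h
    simpa [lin] using this
  have h0 := h' ![1, 0, 0]
  have h1 := h' ![0, 1, 0]
  have h2 := h' ![0, 0, 1]
  simp at h0 h1 h2
  funext a
  fin_cases a
  · exact h0
  · exact h1
  · exact h2

lemma finrank_V1 : Module.finrank K (V K 1) = 3 := by
  rw [finrank_V]
  rfl

lemma finrank_V2 : Module.finrank K (V K 2) = 6 := by
  rw [finrank_V]
  rfl

lemma finrank_V3 : Module.finrank K (V K 3) = 10 := by
  rw [finrank_V]
  rfl

lemma dot_single (j : Fin 3) (g : Rg K) : dot (Pi.single j g) = X j * g := by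
  fin_cases j <;> simp [dot]

lemma V_le_dot (d : ℕ) : V K (d + 1) ≤ (cube (V K d)).map dot := by
  intro f hf
  rw [V_eq_restrictSupport, mem_restrictSupport_iff] at hf
  rw [f.as_sum]
  refine Submodule.sum_mem _ fun m hm => ?_
  have hd : m.degree = d + 1 := hf hm
  obtain ⟨j, hj⟩ : ∃ j, m j ≠ 0 := by
    by_contra h
    push Not at h
    have : m = 0 := by
      ext j
      exact h j
    rw [this] at hd
    simp at hd
  have hm' : Finsupp.single j 1 + (m - Finsupp.single j 1) = m := by
    rw [add_comm]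
    refine tsub_add_cancel_of_le ?_
    rw [Finsupp.single_le_iff]
    omega
  refine ⟨Pi.single j (monomial (m - Finsupp.single j 1) (coeff m f)), ?_, ?_⟩
  · refine mem_cube.2 fun i => ?_
    by_cases hij : i = j
    · subst hij
      rw [Pi.single_eq_same, mem_homogeneousSubmodule]
      refine isHomogeneous_monomial _ ?_
      have h2 := congrArg Finsupp.degree hm'
      rw [map_add, Finsupp.degree_single, hd] at h2
      omega
    · rw [Pi.single_eq_of_ne hij]
      exact Submodule.zero_mem _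
  · rw [dot_single, X, monomial_mul, one_mul, hm']

lemma stratum_det (k : ℕ) (hk : 3 ≤ k) (J : GradedIdeal K) (hJ : J ∈ GT K (T3 k))
    (h13 : betti J 1 3 = 0) (h3 : 1 ≤ betti J 3 (k + 3)) (φ : Rg K →ₗ[K] K)
    (hφ : ∀ f ∈ V K (k + 1), φ f = 0 ↔ f ∈ J.part (k + 1)) :
    (Matrix.of fun a c : Fin 3 => φ (qq a * gg k c)).det = 0 := by
  have hJk : Module.finrank K (J.part k) + 3 = Module.finrank K (V K k) := by
    have := hJ k
    rwa [T3, if_neg (by omega), if_pos le_rfl] at this
  have hJ2 : Module.finrank K (J.part 2) = 3 := by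
    have := hJ 2
    rw [T3, if_neg (by omega), if_pos (by omega), finrank_V2] at this
    omega
  have hJ3 : Module.finrank K (J.part 3) = 7 := by
    have := hJ 3
    rw [T3, if_neg (by omega), if_pos hk, finrank_V3] at this
    omega
  -- step A: a linear form
  obtain ⟨c, hc0, hc⟩ : ∃ c : Fin 3 → K, c ≠ 0 ∧ ∀ a ∈ V K k, φ (lin c * a) = 0 := by
    let Ψ : Rg K →ₗ[K] (Fin 3 → K) :=
      { toFun := fun a j => φ (X j * a)
        map_add' := by
          intro a b
          funext j
          simp [mul_add]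
        map_smul' := by
          intro r a
          funext j
          simp }
    have e1 : (V K k ⊓ (cube (J.part (k + 1))).comap diag : Submodule K (Rg K)) =
        V K k ⊓ (⊥ : Submodule K (Fin 3 → K)).comap Ψ := by
      ext a
      rw [Submodule.mem_inf, Submodule.mem_inf]
      refine and_congr_right fun ha => ?_
      rw [Submodule.mem_comap, Submodule.mem_comap, mem_cube, Submodule.mem_bot]
      have key : ∀ j : Fin 3, φ (X j * a) = 0 ↔ X j * a ∈ J.part (k + 1) := fun j =>
        hφ _ (X_mul_mem j ha)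
      constructor
      · intro h
        funext j
        show φ (X j * a) = 0
        rw [key j]
        fin_cases j
        · exact h 0
        · exact h 1
        · exact h 2
      · intro h j
        have h' : ∀ j : Fin 3, X j * a ∈ J.part (k + 1) := fun j => (key j).1 (congrFun h j)
        fin_cases j
        · exact h' 0
        · exact h' 1
        · exact h' 2
    have e2 := finrank_formula Ψ (V K k) (⊥ : Submodule K (Fin 3 → K))
    rw [← e1, sup_bot_eq, finrank_bot] at e2
    have e3 : 1 ≤ Module.finrank K (V K k ⊓ (cube (J.part (k + 1))).comap diag :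
      Submodule K (Rg K)) - Module.finrank K (J.part k) := h3
    have hne : (V K k).map Ψ < ⊤ := by
      rw [lt_top_iff_ne_top]
      intro htop
      rw [htop, finrank_top, Module.finrank_fintype_fun_eq_card, Fintype.card_fin] at e2
      omega
    obtain ⟨F, hF0, hF⟩ := Submodule.exists_le_ker_of_lt_top _ hne
    refine ⟨fun j => F (Pi.single j 1), ?_, ?_⟩
    · intro h0
      apply hF0
      refine LinearMap.pi_ext' fun j => ?_
      ext
      simpa using congrFun h0 j
    · intro a ha
      have h1 : F (Ψ a) = 0 := hF ⟨a, ha, rfl⟩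
      rw [LinearMap.pi_apply_eq_sum_univ F (Ψ a), Fin.sum_univ_three] at h1
      have h2 : ∀ j, (fun i : Fin 3 => if j = i then (1 : K) else 0) = Pi.single j 1 := by
        intro j
        funext i
        by_cases hij : j = i
        · subst hij
          simp
        · rw [if_neg hij, Pi.single_eq_of_ne (Ne.symm hij)]
      rw [h2, h2, h2] at h1
      rw [lin, add_mul, add_mul, map_add, map_add, mul_assoc, mul_assoc, mul_assoc,
        ← smul_eq_C_mul, ← smul_eq_C_mul, ← smul_eq_C_mul, map_smul, map_smul, map_smul]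
      simp only [smul_eq_mul]
      simp only [smul_eq_mul] at h1
      rw [← h1]
      show F (Pi.single 0 1) * φ (X 0 * a) + F (Pi.single 1 1) * φ (X 1 * a) +
        F (Pi.single 2 1) * φ (X 2 * a) = φ (X 0 * a) * F (Pi.single 0 1) +
        φ (X 1 * a) * F (Pi.single 1 1) + φ (X 2 * a) * F (Pi.single 2 1)
      ring
  have hlne := lin_ne c hc0
  -- step B: the space of quadrics `Q`
  let Q : Submodule K (Rg K) :=
    { carrier := {q | q ∈ V K 2 ∧ ∀ g ∈ V K (k - 1), φ (q * g) = 0}
      add_mem' := by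
        rintro a b ⟨ha, ha'⟩ ⟨hb, hb'⟩
        refine ⟨Submodule.add_mem _ ha hb, fun g hg => ?_⟩
        rw [add_mul, map_add, ha' g hg, hb' g hg, add_zero]
      zero_mem' := ⟨Submodule.zero_mem _, fun g _ => by rw [zero_mul, map_zero]⟩
      smul_mem' := by
        rintro r a ⟨ha, ha'⟩
        refine ⟨Submodule.smul_mem _ _ ha, fun g hg => ?_⟩
        rw [smul_mul_assoc, map_smul, ha' g hg, smul_zero] }
  have hQV : Q ≤ V K 2 := fun q hq => hq.1
  have : FiniteDimensional K Q := Submodule.finiteDimensional_of_le hQV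
  have hJQ : J.part 2 ≤ Q := by
    intro q hq
    refine ⟨J.le 2 hq, fun g hg => ?_⟩
    have h1 := mul_mem_part J hq hg
    rw [show 2 + (k - 1) = k + 1 by omega, mul_comm] at h1
    exact (hφ _ (J.le _ h1)).2 h1
  let M : Rg K →ₗ[K] Rg K := LinearMap.mulLeft K (lin c)
  have hMinj : Function.Injective M := fun a b h => mul_left_cancel₀ hlne h
  have hlQ : (V K 1).map M ≤ Q := by
    rintro _ ⟨m, hm, rfl⟩
    refine ⟨V_mul (lin_mem c) hm, fun g hg => ?_⟩
    show φ (lin c * m * g) = 0
    rw [mul_assoc]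
    apply hc
    have := V_mul hm hg
    rwa [show 1 + (k - 1) = k by omega] at this
  have hfl : Module.finrank K ((V K 1).map M) = 3 := by
    exact (Submodule.equivMapOfInjective M hMinj (V K 1)).finrank_eq.symm.trans finrank_V1
  have hfl2 : Module.finrank K ((V K 2).map M) = 6 := by
    exact (Submodule.equivMapOfInjective M hMinj (V K 2)).finrank_eq.symm.trans finrank_V2
  have hQ4 : 4 ≤ Module.finrank K Q := by
    by_contra hlt
    have e1 : J.part 2 = Q := Submodule.eq_of_le_of_finrank_le hJQ (by omega)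
    have e2 : (V K 1).map M = Q := Submodule.eq_of_le_of_finrank_le hlQ (by omega)
    -- `J_3 ⊆ R_1 J_2`
    have hle : J.part 3 ≤ (V K 2).map M := by
      intro f hf
      have hB : (cube (V K 1)).map cross ⊔ cube (J.part (1 + 1)) =
          cube (V K (1 + 1)) ⊓ (J.part (1 + 2)).comap dot := by
        refine Submodule.eq_of_le_of_finrank_le ?_ (Nat.sub_eq_zero_iff_le.1 h13)
        refine sup_le ?_ ?_
        · rintro _ ⟨w, hw, rfl⟩
          refine ⟨mem_cube.2 fun i => cross_mem_V (mem_cube.1 hw) i, ?_⟩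
          show dot (cross w) ∈ J.part (1 + 2)
          rw [dot_cross]
          exact Submodule.zero_mem _
        · intro w hw
          rw [mem_cube] at hw
          refine ⟨mem_cube.2 fun i => J.le _ (hw i), ?_⟩
          exact Submodule.add_mem _ (Submodule.add_mem _ (J.mul _ 0 _ (hw 0)) (J.mul _ 1 _ (hw 1)))
            (J.mul _ 2 _ (hw 2))
      -- `f = dot v`
      obtain ⟨v, hv, hvf⟩ : ∃ v : Fin 3 → Rg K, (∀ i, v i ∈ V K 2) ∧ dot v = f := by
        obtain ⟨v, hv, hvf⟩ := V_le_dot 2 (J.le 3 hf)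
        exact ⟨v, mem_cube.1 hv, hvf⟩
      have hv' : v ∈ cube (V K (1 + 1)) ⊓ (J.part (1 + 2)).comap dot := by
        refine ⟨mem_cube.2 hv, ?_⟩
        show dot v ∈ J.part 3
        rw [hvf]
        exact hf
      rw [← hB] at hv'
      obtain ⟨_, ⟨w, hw, rfl⟩, u, hu, huv⟩ := Submodule.mem_sup.1 hv'
      have hfu : f = dot u := by
        rw [← hvf, ← huv, map_add, dot_cross, zero_add]
      have hu' : ∀ i, u i ∈ (V K 1).map M := by
        intro i
        rw [e2, ← e1]
        exact mem_cube.1 hu i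
      choose m hm hmu using hu'
      refine ⟨dot m, ?_, ?_⟩
      · exact Submodule.add_mem _ (Submodule.add_mem _ (X_mul_mem 0 (hm 0)) (X_mul_mem 1 (hm 1)))
          (X_mul_mem 2 (hm 2))
      · rw [hfu]
        show lin c * (X 0 * m 0 + X 1 * m 1 + X 2 * m 2) = X 0 * u 0 + X 1 * u 1 + X 2 * u 2
        rw [← hmu 0, ← hmu 1, ← hmu 2]
        show _ = X 0 * (lin c * m 0) + X 1 * (lin c * m 1) + X 2 * (lin c * m 2)
        ring
    have := Submodule.finrank_mono hle
    omega
  -- step C: a combination of the three quadrics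
  have hN : Module.finrank K (LinearMap.range (comb : (Fin 3 → K) →ₗ[K] Rg K)) = 3 := by
    rw [LinearMap.finrank_range_of_inj comb_inj, Module.finrank_fintype_fun_eq_card,
      Fintype.card_fin]
  have hNV : LinearMap.range (comb : (Fin 3 → K) →ₗ[K] Rg K) ≤ V K 2 := by
    rintro _ ⟨c, rfl⟩
    exact Submodule.sum_mem _ fun a _ => Submodule.smul_mem _ _ (qq_mem a)
  have hsi := Submodule.finrank_sup_add_finrank_inf_eq Q
    (LinearMap.range (comb : (Fin 3 → K) →ₗ[K] Rg K))
  have hsup := Submodule.finrank_mono (sup_le hQV hNV)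
  rw [finrank_V2] at hsup
  have hpos : 0 < Module.finrank K
      (Q ⊓ LinearMap.range (comb : (Fin 3 → K) →ₗ[K] Rg K) : Submodule K (Rg K)) := by omega
  have hnb : (Q ⊓ LinearMap.range (comb : (Fin 3 → K) →ₗ[K] Rg K) : Submodule K (Rg K)) ≠ ⊥ := by
    intro h
    rw [h, finrank_bot] at hpos
    omega
  obtain ⟨_, ⟨hqQ, ⟨d, rfl⟩⟩, hq0⟩ := Submodule.exists_mem_ne_zero_of_ne_bot hnb
  -- step D
  refine Matrix.exists_vecMul_eq_zero_iff.1 ⟨d, ?_, ?_⟩
  · rintro rfl
    exact hq0 (map_zero _)
  · funext j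
    have h1 := hqQ.2 (gg k j) (gg_mem k hk j)
    have h2 : (comb d : Rg K) * gg k j = ∑ a, d a • (qq a * gg k j) := by
      show (∑ a, d a • qq a) * gg k j = _
      rw [Finset.sum_mul]
      simp only [smul_mul_assoc]
    rw [h2, map_sum] at h1
    simp only [map_smul, smul_eq_mul] at h1
    exact h1

lemma exists_frame {T : ℕ → ℕ} {I : GradedIdeal K} (hI : I ∈ GT K T) :
    ∃ b : (i : ℕ) → Fin (rk K T i) → Rg K, IsFrame I b := by
  have h : ∀ i, Module.finrank K (I.part i) = rk K T i := by
    intro i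
    have := hI i
    rw [rk]
    omega
  let B : ∀ i, Module.Basis (Fin (rk K T i)) K (I.part i) := fun i =>
    Module.finBasisOfFinrankEq K (I.part i) (h i)
  refine ⟨fun i j => (B i j : Rg K), fun i => ⟨?_, ?_⟩⟩
  · exact (B i).linearIndependent.map' (I.part i).subtype (Submodule.ker_subtype _)
  · have h1 : Set.range (fun j => (B i j : Rg K)) = (I.part i).subtype '' Set.range (B i) := by
      rw [← Set.range_comp]
      rfl
    rw [h1, Submodule.span_image, (B i).span_eq, Submodule.map_top, Submodule.range_subtype]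

/-- The polynomial in the coordinates of the frames whose value is `det (b_{k+1}, f)`. -/
noncomputable def DP (k : ℕ) (e : Option (Fin (rk K (T3 k) (k + 1))) ≃ Mon (k + 1)) (f : Rg K) :
    MvPolynomial (Σ i, Fin (rk K (T3 k) i) × (Fin 3 →₀ ℕ)) K :=
  Matrix.det (Matrix.of fun i j : Option (Fin (rk K (T3 k) (k + 1))) =>
    i.elim (C (coeff (e j).1 f)) fun a => X ⟨k + 1, a, (e j).1⟩)

lemma frameEval_DP (k : ℕ) (e : Option (Fin (rk K (T3 k) (k + 1))) ≃ Mon (k + 1)) (f : Rg K)
    (b : (i : ℕ) → Fin (rk K (T3 k) i) → Rg K) :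
    frameEval (DP k e f) b = phi e (b (k + 1)) f := by
  show eval _ (Matrix.det _) = (mat e (b (k + 1)) f).det
  rw [RingHom.map_det]
  congr 1
  ext i j
  cases i with
  | none => simp [mat]
  | some a => simp [mat]

lemma one_not_mem_closure (k : ℕ) (hk : 3 ≤ k) :
    fam k hk (0 : K) 1 ∉
      zariskiClosure (T3 k) (stratum (T3 k) (betti (fam k hk (1 : K) 0))) := by
  rintro ⟨hG, hcl⟩
  have hcard : Fintype.card (Option (Fin (rk K (T3 k) (k + 1)))) = Fintype.card (Mon (k + 1)) := by
    rw [Fintype.card_option, Fintype.card_fin, card_Mon (K := K), rk]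
    have h1 := hG (k + 1)
    have h2 : T3 k (k + 1) = 1 := by
      rw [T3, if_neg (by omega), if_neg (by omega), if_pos rfl]
    rw [h2] at h1 ⊢
    omega
  let e : Option (Fin (rk K (T3 k) (k + 1))) ≃ Mon (k + 1) := Fintype.equivOfCardEq hcard
  obtain ⟨b, hb⟩ := exists_frame hG
  have hfr : ∀ (J : GradedIdeal K) (b : (i : ℕ) → Fin (rk K (T3 k) i) → Rg K), IsFrame J b →
      ∀ f ∈ V K (k + 1), phi e (b (k + 1)) f = 0 ↔ f ∈ J.part (k + 1) := by
    intro J b hb f hf
    rw [← (hb (k + 1)).2]
    refine phi_eq_zero_iff e (hb (k + 1)).1 (fun j => ?_) hf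
    have : b (k + 1) j ∈ J.part (k + 1) := by
      rw [← (hb (k + 1)).2]
      exact Submodule.subset_span ⟨j, rfl⟩
    exact J.le _ this
  have hval : ∀ b : (i : ℕ) → Fin (rk K (T3 k) i) → Rg K,
      frameEval (Matrix.det (Matrix.of fun a c : Fin 3 => DP k e (qq a * gg k c))) b =
      (Matrix.of fun a c : Fin 3 => phi e (b (k + 1)) (qq a * gg k c)).det := by
    intro b
    show eval _ (Matrix.det _) = _
    rw [RingHom.map_det]
    congr 1
    ext a c
    exact frameEval_DP k e _ b
  have h0 := hcl (Matrix.det (Matrix.of fun a c : Fin 3 => DP k e (qq a * gg k c))) (by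
    rintro J ⟨hJG, hJb⟩ b hb
    rw [hval]
    refine stratum_det k hk J hJG ?_ ?_ _ (hfr J b hb)
    · rw [hJb]
      exact betti_13 k hk
    · rw [hJb]
      exact betti_3 k hk) b hb
  rw [hval] at h0
  -- the value for the special member
  set φ := phi e (b (k + 1)) with hφ
  have hkey := hfr _ b hb
  have hm : (X 0 ^ k * X 1 ^ 1 : Rg K) ∈ V K (k + 1) := mono_mem' rfl
  have hmem : ∀ f ∈ V K (k + 1), φ f =
      (eval P1 f + eval P2 f + 1 * eval (P3 0) f) * φ (X 0 ^ k * X 1 ^ 1) := by
    intro f hf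
    have h1 : f - (eval P1 f + eval P2 f + 1 * eval (P3 0) f) • (X 0 ^ k * X 1 ^ 1 : Rg K) ∈
        V K (k + 1) := Submodule.sub_mem _ hf (Submodule.smul_mem _ _ hm)
    have h2 := (hkey _ h1).2 ((mem_top hk).2 ⟨h1, by
      have hk0 : k ≠ 0 := by omega
      simp [smul_eval, hk0]⟩)
    rw [map_sub, map_smul, smul_eq_mul, sub_eq_zero] at h2
    exact h2
  have hκ : φ (X 0 ^ k * X 1 ^ 1) ≠ 0 := by
    intro h
    have h1 := ((mem_top hk).1 ((hkey _ hm).1 h)).2
    simp at h1
    have hk0 : k ≠ 0 := by omega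
    simp [hk0] at h1
  have hv : ∀ a c, φ (qq a * gg k c) = (eval P1 (qq a * gg k c) + eval P2 (qq a * gg k c) +
      1 * eval (P3 0) (qq a * gg k c)) * φ (X 0 ^ k * X 1 ^ 1) := by
    intro a c
    apply hmem
    have := V_mul (qq_mem (K := K) a) (gg_mem k hk c)
    rwa [show 2 + (k - 1) = k + 1 by omega] at this
  apply pow_ne_zero 3 hκ
  rw [← h0, Matrix.det_fin_three]
  simp only [Matrix.of_apply, hv]
  have e1 : k - 1 ≠ 0 := by omega
  have e2 : k - 2 ≠ 0 := by omega
  simp [qq, gg, e1, e2]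
  ring

/-- **The Betti strata of `G_T`, `T = (1, 3^k, 1)`, `k ≥ 3`, do not satisfy the frontier
property.** -/
theorem result (K : Type*) [Field K] [Infinite K] (k : ℕ) (hk : 3 ≤ k) :
    ¬ FrontierProperty K (T3 k) := by
  intro h
  obtain ⟨B, hB⟩ := h (betti (fam k hk (1 : K) 0))
  have h0 := zero_mem_closure (K := K) k hk
  rw [hB, Set.mem_iUnion₂] at h0
  obtain ⟨γ, hγ, -, hγ2⟩ := h0
  apply one_not_mem_closure (K := K) k hk
  rw [hB, Set.mem_iUnion₂]
  exact ⟨γ, hγ, fam_mem_GT k hk 0 1, (betti_zero_one k hk).trans hγ2⟩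

end Pool.Agent.Results.MP_b99c49_ag.FrontierFails
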